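import Pool.Agent.helper19.QP.SpecS
import Pool.Agent.helper59.EP.WM
import Pool.Agent.helper33.EP.FRO

/-!
# Project qp, row JJ0: the powers of `jj = 1/D`
-/

set_option autoImplicit false

open Finset

noncomputable section

namespace Pool.Agent.QP

open Pool.Agent.helper7.IG (kk LL sig DDk MM im2 ps Vx Nb Frame)
open Pool.Agent.LQ (FF DD)
open Pool.Agent.EP (KK ww vvx WW JG ac pp IsT)
open Pool.Agent.helper81 (PP EE)

theorem JJ0_PP0 : PowerSeries.constantCoeff PP = 1 := by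
  have h1 := congrArg (PowerSeries.constantCoeff (R := ZMod 2)) helper81.PP_mul_EE
  rw [map_mul, map_one] at h1
  have h2 : ∀ a b : ZMod 2, a * b = 1 → a = 1 := by decide
  exact h2 _ _ h1

theorem JJ0_s (a b : ℤ) : HahnSeries.single a (1 : ZMod 2) * HahnSeries.single b (1 : ZMod 2) =
    HahnSeries.single (a + b) (1 : ZMod 2) := by
  rw [HahnSeries.single_mul_single, mul_one]

theorem JJ0_inv : (HahnSeries.single (-1 : ℤ) (1 : ZMod 2) * HahnSeries.ofPowerSeries ℤ (ZMod 2) (PP ^ 24)) *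
    HahnSeries.ofPowerSeries ℤ (ZMod 2) DD = 1 := by
  have h1 : HahnSeries.ofPowerSeries ℤ (ZMod 2) DD =
      HahnSeries.single (1 : ℤ) (1 : ZMod 2) * HahnSeries.ofPowerSeries ℤ (ZMod 2) (EE ^ 24) := by
    rw [LQ.DD_def, map_mul, HahnSeries.ofPowerSeries_X]
  have h2 : HahnSeries.ofPowerSeries ℤ (ZMod 2) (PP ^ 24) * HahnSeries.ofPowerSeries ℤ (ZMod 2) (EE ^ 24) = 1 := by
    rw [← map_mul, ← mul_pow, helper81.PP_mul_EE, one_pow, map_one]
  have h3 : HahnSeries.single (-1 : ℤ) (1 : ZMod 2) * HahnSeries.single (1 : ℤ) (1 : ZMod 2) = 1 := by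
    rw [JJ0_s]
    rfl
  calc (HahnSeries.single (-1 : ℤ) (1 : ZMod 2) * HahnSeries.ofPowerSeries ℤ (ZMod 2) (PP ^ 24)) *
      HahnSeries.ofPowerSeries ℤ (ZMod 2) DD =
      (HahnSeries.single (-1 : ℤ) (1 : ZMod 2) * HahnSeries.single (1 : ℤ) (1 : ZMod 2)) *
      (HahnSeries.ofPowerSeries ℤ (ZMod 2) (PP ^ 24) * HahnSeries.ofPowerSeries ℤ (ZMod 2) (EE ^ 24)) := by
        rw [h1]
        ring
    _ = 1 := by rw [h2, h3, one_mul]

theorem JJ0_jj : jj = HahnSeries.single (-1 : ℤ) (1 : ZMod 2) * HahnSeries.ofPowerSeries ℤ (ZMod 2) (PP ^ 24) := by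
  unfold jj
  exact (eq_inv_of_mul_eq_one_left JJ0_inv).symm

/-- the coefficients of `jj ^ i` -/
theorem JJ0_G (i : ℕ) (M : ℤ) : (jj ^ i).coeff M =
    if (8 : ℤ) ∣ M + i ∧ 0 ≤ M + i then PowerSeries.coeff ((M + i) / 8).toNat (PP ^ (3 * i)) else 0 := by
  have h1 : jj ^ i = HahnSeries.single (-(i : ℤ)) (1 : ZMod 2) *
      HahnSeries.ofPowerSeries ℤ (ZMod 2) (PowerSeries.expand (2 ^ 3) (pow_ne_zero 3 (by norm_num)) (PP ^ (3 * i))) := by
    have e1 : HahnSeries.single (-1 : ℤ) (1 : ZMod 2) ^ i = HahnSeries.single (-(i : ℤ)) (1 : ZMod 2) := by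
      rw [HahnSeries.single_pow]
      simp
    rw [← helper12.PE.pow_eq_expand, JJ0_jj, mul_pow, e1, ← map_pow, ← pow_mul, ← pow_mul]
    congr 3
    ring
  have h2 : (jj ^ i).coeff M = (HahnSeries.ofPowerSeries ℤ (ZMod 2)
      (PowerSeries.expand (2 ^ 3) (pow_ne_zero 3 (by norm_num)) (PP ^ (3 * i)))).coeff (M + i) := by
    have h3 := HahnSeries.coeff_single_mul_add (r := (1 : ZMod 2))
      (x := HahnSeries.ofPowerSeries ℤ (ZMod 2)
        (PowerSeries.expand (2 ^ 3) (pow_ne_zero 3 (by norm_num)) (PP ^ (3 * i)))) (a := M + i) (b := -(i : ℤ))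
    rw [one_mul, add_neg_cancel_right] at h3
    rw [h1, h3]
  rw [h2, PowerSeries.coeff_coe, PowerSeries.coeff_expand]
  by_cases h0 : M + i < 0
  · rw [if_pos h0, if_neg]
    rintro ⟨_, h⟩
    omega
  · rw [if_neg h0]
    obtain ⟨k, hk⟩ : ∃ k : ℕ, M + i = k := ⟨(M + i).toNat, by omega⟩
    rw [hk]
    have h4 : ((k : ℤ) / 8).toNat = k / 2 ^ 3 := by omega
    rw [Int.natAbs_natCast, h4]
    by_cases h5 : 2 ^ 3 ∣ k
    · have h6 : (8 : ℤ) ∣ k := by omega
      rw [if_pos h5, if_pos ⟨h6, Int.natCast_nonneg k⟩]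
    · have h6 : ¬ (8 : ℤ) ∣ k := by omega
      rw [if_neg h5, if_neg fun h => h6 h.1]

theorem JJ0 : JJ0_stmt := by
  have h3 : ∀ (i : ℕ) (M : ℤ), (jj ^ i).coeff M ≠ 0 → (8 : ℤ) ∣ M + i := by
    intro i M h
    by_contra h8
    apply h
    rw [JJ0_G, if_neg fun h => h8 h.1]
  refine ⟨?_, ?_, h3, ?_, ?_, ?_⟩
  · intro i M hM
    rw [JJ0_G, if_neg]
    rintro ⟨_, h⟩
    omega
  · intro i
    rw [JJ0_G, if_pos ⟨by simp, by simp⟩]
    have h4 : ((-(i : ℤ) + i) / 8).toNat = 0 := by simp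
    rw [h4, PowerSeries.coeff_zero_eq_constantCoeff_apply, map_pow, JJ0_PP0, one_pow]
  · intro i
    induction i using Nat.strong_induction_on with
    | _ i ih =>
      intro hi
      by_cases h8 : 8 ∣ i
      · obtain ⟨k, rfl⟩ := h8
        have h9 := ih k (by omega) (by omega)
        have h10 := EP.FRO 3 (jj ^ k) 0
        rw [← pow_mul, if_pos (dvd_zero _)] at h10
        have h11 : (8 : ℕ) * k = k * 2 ^ 3 := by ring
        rw [h11, h10]
        simpa using h9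
      · by_contra h
        have h12 := h3 i 0 h
        omega
  · intro i M
    rw [EP.WM.1 (3 * i) M]
    by_cases hM : (3 : ℤ) ∣ M
    · obtain ⟨N, rfl⟩ := hM
      rw [if_pos (dvd_mul_right _ _), Int.mul_ediv_cancel_left _ (by norm_num), JJ0_G]
      have h4 : ((24 : ℤ) ∣ 3 * N + ((3 * i : ℕ) : ℤ) ∧ 0 ≤ 3 * N + ((3 * i : ℕ) : ℤ)) ↔ ((8 : ℤ) ∣ N + i ∧ 0 ≤ N + i) := by
        constructor <;> intro h <;> omega
      by_cases h5 : (8 : ℤ) ∣ N + i ∧ 0 ≤ N + i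
      · rw [if_pos h5, if_pos (h4.2 h5)]
        congr 2
        omega
      · rw [if_neg h5, if_neg (fun h => h5 (h4.1 h))]
    · rw [if_neg hM, if_neg]
      rintro ⟨h, _⟩
      omega
  · rw [JJ0_jj]
    exact JJ0_inv

end Pool.Agent.QP
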