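import Pool.Agent.helper19.QP.SpecS
import Pool.Agent.helper33.EP.FRO

/-!
# Project qp, row KER: the kernel `T_n (1/D) = ∑_i [q^n](D^i) D^(-i)`
-/

set_option autoImplicit false

open Finset

noncomputable section

namespace Pool.Agent.QP

open Pool.Agent.helper7.IG (kk LL sig DDk MM im2 ps Vx Nb Frame)
open Pool.Agent.LQ (FF DD)
open Pool.Agent.EP (KK ww vvx WW JG ac pp IsT)
open Pool.Agent.helper81 (PP EE)

theorem KER_D (i m : ℕ) : PowerSeries.coeff m (DD ^ i) =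
    if i ≤ m ∧ 8 ∣ m - i then PowerSeries.coeff ((m - i) / 8) (EE ^ (3 * i)) else 0 := by
  have h1 : DD ^ i = PowerSeries.X ^ i *
      PowerSeries.expand (2 ^ 3) (pow_ne_zero 3 (by norm_num)) (EE ^ (3 * i)) := by
    rw [← helper12.PE.pow_eq_expand, LQ.DD_def, mul_pow, ← pow_mul, ← pow_mul]
    congr 2
    ring
  rw [h1, PowerSeries.coeff_X_pow_mul', PowerSeries.coeff_expand]
  by_cases h : i ≤ m
  · rw [if_pos h]
    by_cases h8 : 8 ∣ m - i
    · have h9 : 2 ^ 3 ∣ m - i := by omega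
      rw [if_pos h9, if_pos ⟨h, h8⟩]
      norm_num
    · have h9 : ¬ 2 ^ 3 ∣ m - i := by omega
      rw [if_neg h9, if_neg fun h => h8 h.2]
  · rw [if_neg h, if_neg fun h' => h h'.1]

theorem KER_coe (F : FF) (M : ℤ) : (HahnSeries.ofPowerSeries ℤ (ZMod 2) F).coeff M =
    if M < 0 then 0 else PowerSeries.coeff M.natAbs F := PowerSeries.coeff_coe ..

theorem KER_Dneg (i : ℕ) (hi : 1 ≤ i) (M : ℤ)
    (h : ((HahnSeries.ofPowerSeries ℤ (ZMod 2) DD) ^ i).coeff M ≠ 0) : 1 ≤ M := by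
  by_contra hM
  apply h
  rw [← map_pow, KER_coe]
  split_ifs with h0
  · rfl
  · rw [KER_D, if_neg]
    rintro ⟨h1, _⟩
    omega

theorem KER_unit (hJJ0 : JJ0_stmt) (k i : ℕ) (_hk : 1 ≤ k) (_hi : 1 ≤ i) :
    (jj ^ k * (HahnSeries.ofPowerSeries ℤ (ZMod 2) DD) ^ i).coeff 0 = if i = k then 1 else 0 := by
  obtain ⟨_, _, _, h4, _, h6⟩ := hJJ0
  rcases lt_trichotomy i k with h | h | h
  · rw [if_neg h.ne]
    have h1 : jj ^ k * (HahnSeries.ofPowerSeries ℤ (ZMod 2) DD) ^ i = jj ^ (k - i) := by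
      have h2 : jj ^ k = jj ^ (k - i) * jj ^ i := by
        rw [← pow_add, Nat.sub_add_cancel h.le]
      rw [h2, mul_assoc, ← mul_pow, h6, one_pow, mul_one]
    rw [h1]
    exact h4 _ (by omega)
  · rw [if_pos h, h, ← mul_pow, h6, one_pow]
    rw [HahnSeries.coeff_one, if_pos rfl]
  · rw [if_neg h.ne']
    have h1 : jj ^ k * (HahnSeries.ofPowerSeries ℤ (ZMod 2) DD) ^ i =
        (HahnSeries.ofPowerSeries ℤ (ZMod 2) DD) ^ (i - k) := by
      have h2 : (HahnSeries.ofPowerSeries ℤ (ZMod 2) DD) ^ i =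
          (HahnSeries.ofPowerSeries ℤ (ZMod 2) DD) ^ k * (HahnSeries.ofPowerSeries ℤ (ZMod 2) DD) ^ (i - k) := by
        rw [← pow_add, Nat.add_sub_cancel' h.le]
      rw [h2, ← mul_assoc, ← mul_pow, h6, one_pow, one_mul]
    rw [h1]
    by_contra h2
    have := KER_Dneg (i - k) (by omega) 0 h2
    omega

theorem KER_exp (hJJ0 : JJ0_stmt) (g : KK) (hg : g ∈ JS) : ∃ N₀ : ℕ, ∀ N : ℕ, N₀ ≤ N → ∀ M : ℤ,
    g.coeff M = ∑ i ∈ Icc 1 N, (g * (HahnSeries.ofPowerSeries ℤ (ZMod 2) DD) ^ i).coeff 0 * (jj ^ i).coeff M := by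
  refine Submodule.span_induction (p := fun g _ => ∃ N₀ : ℕ, ∀ N : ℕ, N₀ ≤ N → ∀ M : ℤ,
    g.coeff M = ∑ i ∈ Icc 1 N, (g * (HahnSeries.ofPowerSeries ℤ (ZMod 2) DD) ^ i).coeff 0 * (jj ^ i).coeff M)
    ?_ ?_ ?_ ?_ hg
  · rintro _ ⟨k, hk, rfl⟩
    refine ⟨k, fun N hN M => ?_⟩
    rw [Finset.sum_eq_single k]
    · rw [KER_unit hJJ0 k k hk hk, if_pos rfl, one_mul]
    · intro i hi hik
      rw [KER_unit hJJ0 k i hk (Finset.mem_Icc.1 hi).1, if_neg hik, zero_mul]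
    · intro h
      exact absurd (Finset.mem_Icc.2 ⟨hk, hN⟩) h
  · refine ⟨0, fun N _ M => ?_⟩
    simp
  · rintro x y _ _ ⟨A, hA⟩ ⟨B, hB⟩
    refine ⟨max A B, fun N hN M => ?_⟩
    rw [HahnSeries.coeff_add, hA N ((le_max_left _ _).trans hN) M, hB N ((le_max_right _ _).trans hN) M,
      ← Finset.sum_add_distrib]
    refine Finset.sum_congr rfl fun i _ => ?_
    rw [add_mul x y, HahnSeries.coeff_add, add_mul]
  · rintro c x _ ⟨A, hA⟩
    refine ⟨A, fun N hN M => ?_⟩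
    rw [HahnSeries.coeff_smul, hA N hN M, Finset.smul_sum]
    refine Finset.sum_congr rfl fun i _ => ?_
    rw [smul_mul_assoc, HahnSeries.coeff_smul, smul_eq_mul, smul_eq_mul, mul_assoc]

theorem KER_c0 (n : ℕ) (g : KK) (hg : ∀ M : ℤ, M ≤ 0 → g.coeff M = if M = -(n : ℤ) then 1 else 0)
    (i : ℕ) (hi : 1 ≤ i) : (g * (HahnSeries.ofPowerSeries ℤ (ZMod 2) DD) ^ i).coeff 0 =
      PowerSeries.coeff n (DD ^ i) := by
  have hn : ((HahnSeries.ofPowerSeries ℤ (ZMod 2) DD) ^ i).coeff (n : ℤ) = PowerSeries.coeff n (DD ^ i) := by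
    rw [← map_pow, KER_coe, if_neg (by omega), Int.natAbs_natCast]
  rw [HahnSeries.coeff_mul, Finset.sum_eq_single (-(n : ℤ), (n : ℤ))]
  · show g.coeff (-(n : ℤ)) * ((HahnSeries.ofPowerSeries ℤ (ZMod 2) DD) ^ i).coeff (n : ℤ) = _
    rw [hg _ (by omega), if_pos rfl, one_mul, hn]
  · rintro ⟨a, b⟩ hp hne
    rw [Finset.mem_antidiagonal] at hp
    obtain ⟨ha, hb, hab⟩ := hp
    exfalso
    apply hne
    have hb1 : 1 ≤ b := KER_Dneg i hi b hb
    have hab' : a + b = 0 := hab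
    have ha' : g.coeff a ≠ 0 := ha
    rw [hg a (by omega)] at ha'
    have : a = -(n : ℤ) := by
      by_contra h
      rw [if_neg h] at ha'
      exact ha' rfl
    exact Prod.ext this (by show b = (n : ℤ); omega)
  · intro h
    show g.coeff (-(n : ℤ)) * ((HahnSeries.ofPowerSeries ℤ (ZMod 2) DD) ^ i).coeff (n : ℤ) = 0
    by_contra h2
    apply h
    rw [Finset.mem_antidiagonal]
    exact ⟨left_ne_zero_of_mul h2, right_ne_zero_of_mul h2, by show -(n : ℤ) + n = 0; omega⟩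

theorem KER_odd (hJJ0 : JJ0_stmt) (hJGN : JGN_stmt) (hTJN : TJN_stmt) (n : ℕ) (hn : Odd n) (M : ℤ) :
    JG jc n M = ∑ i ∈ Icc 1 n, PowerSeries.coeff n (DD ^ i) * (jj ^ i).coeff M := by
  obtain ⟨g, hg, hgc⟩ := hTJN n hn
  obtain ⟨N₀, hN⟩ := KER_exp hJJ0 g hg
  have hg0 : ∀ M : ℤ, M ≤ 0 → g.coeff M = if M = -(n : ℤ) then 1 else 0 := by
    intro M hM
    rw [hgc, hJGN.1 n M hn.pos hM]
  rw [← hgc, hN (max N₀ n) (le_max_left _ _) M]
  symm
  refine (Finset.sum_subset (Finset.Icc_subset_Icc le_rfl (le_max_right N₀ n)) ?_).trans ?_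
  · intro i hi hi'
    rw [Finset.mem_Icc] at hi hi'
    rw [KER_D, if_neg, zero_mul]
    rintro ⟨h1, _⟩
    exact hi' ⟨hi.1, h1⟩
  · refine Finset.sum_congr rfl fun i hi => ?_
    rw [KER_c0 n g hg0 i (Finset.mem_Icc.1 hi).1]

theorem KER_jc (hJJ0 : JJ0_stmt) (N : ℤ) (h : jc N ≠ 0) : N % 2 = 1 := by
  have h1 := hJJ0.2.2.1 1 N (by rw [pow_one]; exact h)
  push_cast at h1
  omega

theorem KER_div (d a b : ℤ) (hd : d ≠ 0) : (d * a) * (d * b) / d ^ 2 = a * b := by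
  have h : (d * a) * (d * b) = d ^ 2 * (a * b) := by ring
  rw [h, Int.mul_ediv_cancel_left _ (pow_ne_zero 2 hd)]

theorem KER_e1 (hJJ0 : JJ0_stmt) (m : ℕ) (hm : 0 < m) (M : ℤ) (hM : ¬ (2 : ℤ) ∣ M) : JG jc (2 * m) M = 0 := by
  unfold JG
  refine Finset.sum_eq_zero fun d hd => ?_
  rw [Finset.mem_filter, Nat.mem_divisors] at hd
  obtain ⟨⟨⟨a, ha⟩, _⟩, b, hb⟩ := hd
  by_contra h
  have h1 := KER_jc hJJ0 _ h
  have hd0 : (d : ℤ) ≠ 0 := by
    rintro h0
    have : d = 0 := by exact_mod_cast h0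
    rw [this, zero_mul] at ha
    omega
  have h2 : (((2 * m : ℕ) : ℤ)) = d * a := by exact_mod_cast ha
  rw [h2, hb, KER_div _ _ _ hd0] at h1
  -- `a` is odd, so `d` is even
  have ha2 : (a : ℤ) % 2 = 1 := by
    by_contra h3
    have h4 : (2 : ℤ) ∣ a := by omega
    have h5 : (2 : ℤ) ∣ a * b := h4.mul_right b
    omega
  have hd2 : (2 : ℤ) ∣ d := by
    have h5 : (2 : ℤ) ∣ (d : ℤ) * a := ⟨m, by rw [← h2]; push_cast; ring⟩
    rcases Int.prime_two.dvd_mul.1 h5 with h6 | h6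
    · exact h6
    · omega
  exact hM (by rw [hb]; exact hd2.mul_right b)

theorem KER_e2 (hJJ0 : JJ0_stmt) (m : ℕ) (hm : 0 < m) (M : ℤ) : JG jc (2 * m) (2 * M) = JG jc m M := by
  unfold JG
  symm
  have hinj : Set.InjOn (fun d : ℕ => 2 * d) (m.divisors.filter (fun d : ℕ => (d : ℤ) ∣ M) : Set ℕ) := by
    intro a _ b _ h
    have : 2 * a = 2 * b := h
    omega
  have h1 : ∑ d ∈ m.divisors.filter (fun d : ℕ => (d : ℤ) ∣ M), jc ((m : ℤ) * M / (d : ℤ) ^ 2) =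
      ∑ d ∈ (m.divisors.filter (fun d : ℕ => (d : ℤ) ∣ M)).image (fun d : ℕ => 2 * d),
        jc (((2 * m : ℕ) : ℤ) * (2 * M) / (d : ℤ) ^ 2) := by
    rw [Finset.sum_image hinj]
    refine Finset.sum_congr rfl fun d hd => ?_
    rw [Finset.mem_filter, Nat.mem_divisors] at hd
    obtain ⟨⟨⟨a, ha⟩, _⟩, b, hb⟩ := hd
    have hd0 : (d : ℤ) ≠ 0 := by
      rintro h0
      have : d = 0 := by exact_mod_cast h0
      rw [this, zero_mul] at ha
      omega
    have e1 : (m : ℤ) = d * a := by exact_mod_cast ha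
    have e2 : ((2 * m : ℕ) : ℤ) = ((2 * d : ℕ) : ℤ) * a := by
      push_cast
      rw [e1]
      ring
    have e3 : (2 * M : ℤ) = ((2 * d : ℕ) : ℤ) * b := by
      push_cast
      rw [hb]
      ring
    rw [e2, e3, KER_div _ _ _ (by push_cast; omega), e1, hb, KER_div _ _ _ hd0]
  rw [h1]
  apply Finset.sum_subset
  · intro x hx
    rw [Finset.mem_image] at hx
    obtain ⟨d, hd, rfl⟩ := hx
    rw [Finset.mem_filter, Nat.mem_divisors] at hd ⊢
    obtain ⟨⟨hd1, _⟩, hd2⟩ := hd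
    refine ⟨⟨Nat.mul_dvd_mul_left 2 hd1, by omega⟩, ?_⟩
    push_cast
    exact mul_dvd_mul_left 2 hd2
  · intro d hd hnd
    rw [Finset.mem_filter, Nat.mem_divisors] at hd
    obtain ⟨⟨⟨a, ha⟩, _⟩, b, hb⟩ := hd
    have hd0 : (d : ℤ) ≠ 0 := by
      rintro h0
      have : d = 0 := by exact_mod_cast h0
      rw [this, zero_mul] at ha
      omega
    have hodd : ¬ 2 ∣ d := by
      rintro ⟨e, rfl⟩
      apply hnd
      rw [Finset.mem_image]
      refine ⟨e, ?_, rfl⟩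
      rw [Finset.mem_filter, Nat.mem_divisors]
      refine ⟨⟨⟨a, ?_⟩, hm.ne'⟩, b, ?_⟩
      · rw [mul_assoc] at ha
        omega
      · push_cast at hb
        rw [mul_assoc] at hb
        omega
    by_contra h
    have h3 := KER_jc hJJ0 _ h
    have h2 : (((2 * m : ℕ) : ℤ)) = d * a := by exact_mod_cast ha
    rw [h2, hb, KER_div _ _ _ hd0] at h3
    have h5 : (2 : ℤ) ∣ (d : ℤ) * a := ⟨m, by rw [← h2]; push_cast; ring⟩
    rcases Int.prime_two.dvd_mul.1 h5 with h6 | h6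
    · exact hodd (by exact_mod_cast h6)
    · have h7 : (2 : ℤ) ∣ a * b := h6.mul_right b
      omega

theorem KER_r (m : ℕ) (M : ℤ) : ∑ i ∈ Icc 1 (2 * m), PowerSeries.coeff (2 * m) (DD ^ i) * (jj ^ i).coeff M =
    ∑ i ∈ Icc 1 m, PowerSeries.coeff m (DD ^ i) * (if (2 : ℤ) ∣ M then (jj ^ i).coeff (M / 2) else 0) := by
  have hinj : Set.InjOn (fun d : ℕ => 2 * d) (Icc 1 m : Set ℕ) := by
    intro a _ b _ h
    have : 2 * a = 2 * b := h
    omega
  have h1 : ∑ i ∈ Icc 1 m, PowerSeries.coeff m (DD ^ i) * (if (2 : ℤ) ∣ M then (jj ^ i).coeff (M / 2) else 0) =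
      ∑ i ∈ (Icc 1 m).image (fun d : ℕ => 2 * d), PowerSeries.coeff (2 * m) (DD ^ i) * (jj ^ i).coeff M := by
    rw [Finset.sum_image (by exact_mod_cast hinj)]
    refine Finset.sum_congr rfl fun i _ => ?_
    have h2 : PowerSeries.coeff (2 * m) (DD ^ (2 * i)) = PowerSeries.coeff m (DD ^ i) := by
      have h3 : DD ^ (2 * i) = (DD ^ i) ^ (2 ^ 1) := by
        rw [← pow_mul]
        congr 1
        ring
      rw [h3, helper12.PE.pow_eq_expand, PowerSeries.coeff_expand, if_pos (by simp)]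
      congr 1
      simp
    have h4 := EP.FRO 1 (jj ^ i) M
    rw [← pow_mul] at h4
    have h5 : (2 * i) = i * 2 ^ 1 := by ring
    rw [h2, h5, h4]
    simp
  rw [h1]
  symm
  apply Finset.sum_subset
  · intro x hx
    rw [Finset.mem_image] at hx
    obtain ⟨d, hd, rfl⟩ := hx
    rw [Finset.mem_Icc] at hd ⊢
    omega
  · intro i hi hni
    rw [Finset.mem_Icc] at hi
    rw [KER_D, if_neg, zero_mul]
    rintro ⟨h2, h3⟩
    apply hni
    rw [Finset.mem_image]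
    refine ⟨i / 2, ?_, ?_⟩
    · rw [Finset.mem_Icc]
      omega
    · show 2 * (i / 2) = i
      omega

theorem KER (hJJ0 : JJ0_stmt) (hJGN : JGN_stmt) (hTJN : TJN_stmt) : KER_stmt := by
  intro n
  induction n using Nat.strong_induction_on with
  | _ n ih =>
    intro M hn
    by_cases ho : Odd n
    · exact KER_odd hJJ0 hJGN hTJN n ho M
    · rw [Nat.not_odd_iff_even, even_iff_two_dvd] at ho
      obtain ⟨m, rfl⟩ := ho
      have hm : 0 < m := by omega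
      rw [KER_r]
      by_cases hM : (2 : ℤ) ∣ M
      · obtain ⟨M', rfl⟩ := hM
        rw [KER_e2 hJJ0 m hm, ih m (by omega) M' hm]
        refine Finset.sum_congr rfl fun i _ => ?_
        rw [if_pos (dvd_mul_right _ _), Int.mul_ediv_cancel_left _ (by norm_num)]
      · rw [KER_e1 hJJ0 m hm M hM]
        symm
        refine Finset.sum_eq_zero fun i _ => ?_
        rw [if_neg hM, mul_zero]

end Pool.Agent.QP
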